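import Pool.Agent.H62.RN.Fin

/-!
# Rational sets on spheres which are dense in several circles and robustly nonplanar

`IsRationalSet X` (all distances between two points of `X` are rational) and `NotInHyperplane X`
(`X` is not contained in an affine subspace of dimension `d - 1`) are the definitions of the library
module `Pool.Graph.R_seed8.Results.MP_209919_co.InfiniteNonplanar`.
-/

set_option autoImplicit false

open Module

namespace Pool.Agent.Results.MP_209919_co.DenseInCircles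

open Pool.Agent.Results.MP_209919_co.InfiniteNonplanar
open Pool.Agent.H62.RN

/-- Every hyperplane (affine subspace of dimension `d - 1`) misses infinitely many points of `X`. -/
def HyperplanesMissInfinitely {d : ℕ} (X : Set (EuclideanSpace ℝ (Fin d))) : Prop :=
  ∀ H : AffineSubspace ℝ (EuclideanSpace ℝ (Fin d)), finrank ℝ H.direction + 1 = d →
    (X \ (H : Set (EuclideanSpace ℝ (Fin d)))).Infinite

/-- There are `k` two-dimensional affine planes, with pairwise orthogonal directions, each of which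
meets the sphere with centre `c` and radius `ρ` in a circle (more than one point), such that for
each of the planes the points of `X` in the plane are dense in this circle. -/
def IsDenseInCircles {d : ℕ} (c : EuclideanSpace ℝ (Fin d)) (ρ : ℝ) (k : ℕ)
    (X : Set (EuclideanSpace ℝ (Fin d))) : Prop :=
  ∃ A : Fin k → AffineSubspace ℝ (EuclideanSpace ℝ (Fin d)),
    (∀ i, finrank ℝ (A i).direction = 2) ∧
    (∀ i j, i ≠ j → (A i).direction ⟂ (A j).direction) ∧
    (∀ i, (Metric.sphere c ρ ∩ (A i : Set (EuclideanSpace ℝ (Fin d)))).Nontrivial) ∧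
    ∀ i, Metric.sphere c ρ ∩ (A i : Set (EuclideanSpace ℝ (Fin d))) ⊆
      closure (X ∩ (A i : Set (EuclideanSpace ℝ (Fin d))))

theorem dense_of_hasCircles {d k : ℕ} {X : Set (Eu d)} (c : Eu d) {ρ : ℝ} (hρ : 0 < ρ)
    (h : HasCircles d k (ρ ^ 2) X) : IsDenseInCircles c ρ k ((fun x => c + x) '' X) := by
  obtain ⟨ι, hι, F, z, q, h1, h2, h3, h4, h5, h6⟩ := h
  let e : Fin k ≃ ι := (Fintype.equivFinOfCardEq h1).symm
  have hmem : ∀ (i : ι) (x : Eu d),
      x ∈ AffineSubspace.mk' (c + z i) (LinearMap.range (F i).toLinearMap) ↔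
        ∃ v, x = c + (z i + F i v) := by
    intro i x
    rw [AffineSubspace.mem_mk', vsub_eq_sub]
    constructor
    · rintro ⟨v, hv⟩
      refine ⟨v, ?_⟩
      change F i v = x - (c + z i) at hv
      rw [hv]
      abel
    · rintro ⟨v, rfl⟩
      refine ⟨v, ?_⟩
      change F i v = _
      abel
  have hnorm : ∀ (i : ι) (v : Eu 2), ‖z i + F i v‖ ^ 2 = ‖z i‖ ^ 2 + ‖v‖ ^ 2 := by
    intro i v
    rw [norm_add_sq_real, h4, (F i).norm_map]
    ring
  have hsph : ∀ (i : ι) (v : Eu 2), c + (z i + F i v) ∈ Metric.sphere c ρ ↔ ‖v‖ ^ 2 = q i := by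
    intro i v
    rw [Metric.mem_sphere, dist_eq_norm, add_sub_cancel_left,
      ← pow_left_inj₀ (norm_nonneg _) hρ.le two_ne_zero, hnorm, ← h3 i]
    constructor
    · intro h; linarith
    · intro h; linarith
  refine ⟨fun i => AffineSubspace.mk' (c + z (e i)) (LinearMap.range (F (e i)).toLinearMap),
    ?_, ?_, ?_, ?_⟩
  · intro i
    rw [AffineSubspace.direction_mk', LinearMap.finrank_range_of_inj (F (e i)).injective,
      finrank_euclideanSpace_fin]
  · intro i j hij
    rw [AffineSubspace.direction_mk', AffineSubspace.direction_mk', Submodule.isOrtho_iff_inner_eq]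
    rintro _ ⟨v, rfl⟩ _ ⟨w, rfl⟩
    exact h5 (e i) (e j) (fun h => hij (e.injective h)) v w
  · intro i
    have hv : ‖(EuclideanSpace.single (0 : Fin 2) (Real.sqrt (q (e i))) : Eu 2)‖ ^ 2 = q (e i) := by
      rw [EuclideanSpace.norm_single, Real.norm_eq_abs, sq_abs, Real.sq_sqrt (h2 _).le]
    set v : Eu 2 := EuclideanSpace.single (0 : Fin 2) (Real.sqrt (q (e i))) with hvdef
    refine ⟨c + (z (e i) + F (e i) v), ⟨(hsph _ _).2 hv, (hmem _ _).2 ⟨v, rfl⟩⟩,
      c + (z (e i) + F (e i) (-v)), ⟨(hsph _ _).2 (by rw [norm_neg, hv]),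
        (hmem _ _).2 ⟨-v, rfl⟩⟩, ?_⟩
    intro h
    have h7 : v = -v := (F (e i)).injective (add_left_cancel (add_left_cancel h))
    have h8 : v = 0 := by
      have h12 : (2 : ℝ) • v = 0 := by
        rw [two_smul]
        nth_rewrite 2 [h7]
        exact add_neg_cancel v
      exact (smul_eq_zero.1 h12).resolve_left two_ne_zero
    rw [h8, norm_zero] at hv
    have := h2 (e i)
    norm_num at hv
    linarith
  · rintro i x ⟨hx1, hx2⟩
    obtain ⟨v, rfl⟩ := (hmem _ _).1 hx2
    have hv := (hsph _ _).1 hx1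
    have h9 := h6 (e i) v hv
    have h10 : c + (z (e i) + F (e i) v) ∈
        closure ((fun x => c + x) '' (X ∩ Set.range fun w => z (e i) + F (e i) w)) :=
      image_closure_subset_closure_image (by fun_prop) ⟨_, h9, rfl⟩
    refine closure_mono ?_ h10
    rintro _ ⟨_, ⟨h11, ⟨w, rfl⟩⟩, rfl⟩
    exact ⟨⟨_, h11, rfl⟩, (hmem _ _).2 ⟨w, rfl⟩⟩

theorem translate_sphere {d : ℕ} {X : Set (Eu d)} (c : Eu d) {ρ : ℝ} (hρ : 0 < ρ)
    (hX : ∀ x ∈ X, ‖x‖ ^ 2 = ρ ^ 2) : (fun x => c + x) '' X ⊆ Metric.sphere c ρ := by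
  rintro _ ⟨x, hx, rfl⟩
  rw [Metric.mem_sphere, dist_eq_norm]
  simp only [add_sub_cancel_left]
  exact (pow_left_inj₀ (norm_nonneg x) hρ.le two_ne_zero).1 (hX x hx)

theorem translate_rational {d : ℕ} {X : Set (Eu d)} (c : Eu d)
    (hX : ∀ x ∈ X, ∀ y ∈ X, ∃ r : ℚ, dist x y = (r : ℝ)) :
    IsRationalSet ((fun x => c + x) '' X) := by
  rintro _ ⟨x, hx, rfl⟩ _ ⟨y, hy, rfl⟩ _
  obtain ⟨r, hr⟩ := hX x hx y hy
  exact ⟨r, by simpa using hr⟩

theorem translate_spread {d : ℕ} {X : Set (Eu d)} (c : Eu d) (hXi : X.Infinite)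
    (hX : Spread X) : NotInHyperplane ((fun x => c + x) '' X) := by
  apply notInHyperplane_of_spread (hXi.nonempty.image _)
  intro a ha b
  obtain ⟨x, hx, hxb⟩ := hX a ha (b - inner ℝ a c)
  refine ⟨c + x, ⟨x, hx, rfl⟩, ?_⟩
  rw [inner_add_right]
  intro h
  apply hxb
  linarith

theorem translate_robust {d : ℕ} (hd : 1 ≤ d) {X : Set (Eu d)} (c : Eu d)
    (hX : ∀ a : Eu d, a ≠ 0 → ∀ b : ℝ, {x ∈ X | inner ℝ a x ≠ b}.Infinite) :
    HyperplanesMissInfinitely ((fun x => c + x) '' X) := by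
  intro H hH
  have hinj : Function.Injective fun x : Eu d => c + x := fun x y h => add_left_cancel h
  rcases (H : Set (Eu d)).eq_empty_or_nonempty with h0 | ⟨x0, hx0⟩
  · rw [h0, Set.sdiff_empty]
    exact (robust_infinite hd hX).image hinj.injOn
  have hfin : finrank ℝ H.directionᗮ = 1 := by
    have := Submodule.finrank_add_finrank_orthogonal H.direction
    rw [finrank_euclideanSpace_fin] at this
    omega
  have hne : H.directionᗮ ≠ ⊥ := by
    intro h0
    rw [h0] at hfin
    simp at hfin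
  obtain ⟨a, ha, ha0⟩ := Submodule.exists_mem_ne_zero_of_ne_bot hne
  refine ((hX a ha0 (inner ℝ a x0 - inner ℝ a c)).image hinj.injOn).mono ?_
  rintro _ ⟨x, hx, rfl⟩
  refine ⟨⟨x, hx.1, rfl⟩, fun hxH => hx.2 ?_⟩
  have hdir : (c + x) -ᵥ x0 ∈ H.direction := AffineSubspace.vsub_mem_direction hxH hx0
  have h1 : inner ℝ a ((c + x) -ᵥ x0) = 0 := (Submodule.mem_orthogonal' _ _).1 ha _ hdir
  rw [vsub_eq_sub, inner_sub_right, inner_add_right] at h1
  linarith

theorem rat_of_notInHyperplane {d : ℕ} {c : Eu d} {ρ : ℝ} {X : Set (Eu d)}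
    (hX : X ⊆ Metric.sphere c ρ) (hr : IsRationalSet X) (hH : NotInHyperplane X)
    {k : ℕ} (hk : 1 ≤ k) (hC : IsDenseInCircles c ρ k X) : 2 ≤ d ∧ ∃ q : ℚ, ρ ^ 2 = (q : ℝ) := by
  obtain ⟨A, h1, h2, h3, h4⟩ := hC
  have hne : X.Nonempty := by
    obtain ⟨x, hx, -⟩ := h3 ⟨0, hk⟩
    have h5 := h4 ⟨0, hk⟩ hx
    obtain ⟨y, hy, -⟩ := closure_nonempty_iff.1 ⟨x, h5⟩
    exact ⟨y, hy⟩
  refine ⟨?_, sq_radius_rational hX hne hr (spread_of_notInHyperplane hne hH)⟩
  rw [← h1 ⟨0, hk⟩]
  exact (Submodule.finrank_le _).trans (finrank_euclideanSpace_fin).le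

/-- **Rational sets on spheres, dense in circles.** Let `S` be the sphere with centre `c` and radius
`ρ > 0` in `ℝ^d`.
(1) (The second question.) `S` contains an infinite rational set not contained in any hyperplane if
and only if `d ≥ 2` and `ρ ^ 2` is rational.
(2) In this case the set can be chosen dense in `max 1 ⌊(d - 1) / 2⌋` circles of `S` in pairwise
orthogonal planes.
(3) If `d = 2`, `d = 5` or `d ≥ 7`, it can be chosen so that moreover every hyperplane misses
infinitely many of its points.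
(4) If `d` is even and `√2 ρ` is rational, it can be chosen so that every hyperplane misses
infinitely many of its points, and dense in `d / 2` circles of `S` in pairwise orthogonal
planes. -/
theorem result (d : ℕ) (ρ : ℝ) (hρ : 0 < ρ) (c : EuclideanSpace ℝ (Fin d)) :
    ((∃ X : Set (EuclideanSpace ℝ (Fin d)), X ⊆ Metric.sphere c ρ ∧ X.Infinite ∧
      IsRationalSet X ∧ NotInHyperplane X) ↔ 2 ≤ d ∧ ∃ q : ℚ, ρ ^ 2 = (q : ℝ)) ∧
    ((∃ X : Set (EuclideanSpace ℝ (Fin d)), X ⊆ Metric.sphere c ρ ∧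
      IsRationalSet X ∧ NotInHyperplane X ∧ IsDenseInCircles c ρ (max 1 ((d - 1) / 2)) X) ↔
        2 ≤ d ∧ ∃ q : ℚ, ρ ^ 2 = (q : ℝ)) ∧
    (d = 2 ∨ d = 5 ∨ 7 ≤ d →
      ((∃ X : Set (EuclideanSpace ℝ (Fin d)), X ⊆ Metric.sphere c ρ ∧ IsRationalSet X ∧
        HyperplanesMissInfinitely X ∧ IsDenseInCircles c ρ (max 1 ((d - 1) / 2)) X) ↔
          ∃ q : ℚ, ρ ^ 2 = (q : ℝ))) ∧
    (Even d → 0 < d → (∃ q : ℚ, Real.sqrt 2 * ρ = (q : ℝ)) →
      ∃ X : Set (EuclideanSpace ℝ (Fin d)), X ⊆ Metric.sphere c ρ ∧ IsRationalSet X ∧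
        HyperplanesMissInfinitely X ∧ IsDenseInCircles c ρ (d / 2) X) := by
  have hmiss : ∀ X : Set (Eu d), HyperplanesMissInfinitely X → NotInHyperplane X := by
    intro X hX H hH hXH
    have := hX H hH
    rw [Set.sdiff_eq_empty.2 hXH] at this
    exact this Set.finite_empty
  refine ⟨InfiniteNonplanar.result d ρ hρ c, ?_, ?_, ?_⟩
  · constructor
    · rintro ⟨X, hX, hr, hH, hC⟩
      exact rat_of_notInHyperplane hX hr hH (le_max_left _ _) hC
    · rintro ⟨hd, q, hq⟩
      have hqr : (0 : ℝ) < q := by rw [← hq]; positivity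
      obtain ⟨X, h1, h2, h3, h4, h5⟩ := SC_all d hd q (by exact_mod_cast hqr)
      rw [← hq] at h2 h5
      exact ⟨(fun x => c + x) '' X, translate_sphere c hρ h2, translate_rational c h3,
        translate_spread c h1 h4, dense_of_hasCircles c hρ h5⟩
  · intro hd
    constructor
    · rintro ⟨X, hX, hr, hH, hC⟩
      exact (rat_of_notInHyperplane hX hr (hmiss X hH) (le_max_left _ _) hC).2
    · rintro ⟨q, hq⟩
      have hqr : (0 : ℝ) < q := by rw [← hq]; positivity
      have hq0 : 0 < q := by exact_mod_cast hqr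
      have hRC : RC d (max 1 ((d - 1) / 2)) (q : ℝ) := by
        rcases hd with rfl | hd
        · exact RC_two q hq0
        · have h := RC_all d hd q hq0
          rwa [max_eq_right (by omega)]
      obtain ⟨X, h2, h3, h4, h5⟩ := hRC
      rw [← hq] at h2 h5
      exact ⟨(fun x => c + x) '' X, translate_sphere c hρ h2, translate_rational c h3,
        translate_robust (by omega) c h4, dense_of_hasCircles c hρ h5⟩
  · rintro ⟨m, hm⟩ hd ⟨q, hq⟩
    have hqr : (0 : ℝ) < q := by rw [← hq]; positivity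
    have hq0 : 0 < q := by exact_mod_cast hqr
    have h := RC_even m (by omega) q hq0
    have e1 : 2 * m = d := by omega
    have e2 : (q : ℝ) ^ 2 / 2 = ρ ^ 2 := by
      rw [← hq, mul_pow, Real.sq_sqrt (by norm_num)]
      ring
    have e3 : d / 2 = m := by omega
    rw [e1, e2] at h
    rw [e3]
    obtain ⟨X, h2, h3, h4, h5⟩ := h
    exact ⟨(fun x => c + x) '' X, translate_sphere c hρ h2, translate_rational c h3,
      translate_robust hd c h4, dense_of_hasCircles c hρ h5⟩

end Pool.Agent.Results.MP_209919_co.DenseInCircles
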